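import Pool.Agent.Helper15.AF.Goals2

namespace Pool.Agent.Helper65.AF

open Pool.Agent.Helper51.ZP Pool.Agent.Helper78.DT Pool.Agent.Helper78.JT Pool.Agent.Helper15.AF
open scoped Classical

lemma hv_add {n P e w : ℕ} (c c' : Fin n → ZMod 2) :
    hv P e w (c + c') = hv P e w c + hv P e w c' := by
  ext u
  simp only [hv, Pi.add_apply]
  rw [← Finset.sum_add_distrib]
  refine Finset.sum_congr rfl fun v _ => ?_
  split_ifs <;> simp

lemma tm_zero {n : ℕ} (Y : ℕ → Bool) (m : ℕ) : tm Y m (0 : Fin n → ZMod 2) = 0 := by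
  ext i
  simp [tm]

lemma zadd {x y : ZMod 2} : x + y = 0 ↔ x = y := by
  revert x y
  decide

lemma hv_ind {n P e w : ℕ} (hP : 0 < P) {S' : Finset (Fin n)}
    (hinj : Set.InjOn (fun v : Fin n => hs P e w v) (S' : Set (Fin n))) :
    hv P e w (ind S') = ind (S'.image (hF P e w hP)) := by
  ext u
  simp only [hv, ind]
  by_cases hu : ∃ v ∈ S', hF P e w hP v = u
  · obtain ⟨v, hv1, hv2⟩ := hu
    rw [if_pos (Finset.mem_image.mpr ⟨v, hv1, hv2⟩), Finset.sum_eq_single v]
    · rw [if_pos (by rw [← hv2]; rfl), if_pos hv1]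
    · intro v' _ hne
      by_cases h1 : v' ∈ S'
      · rw [if_neg]
        intro h2
        refine hne (hinj h1 hv1 ?_)
        show hs P e w v' = hs P e w v
        rw [h2, ← hv2]
        rfl
      · rw [if_neg h1, ite_self]
    · intro h
      exact absurd (Finset.mem_univ v) h
  · rw [if_neg (fun h => hu (Finset.mem_image.mp h))]
    refine Finset.sum_eq_zero fun v _ => ?_
    by_cases h1 : v ∈ S'
    · rw [if_neg]
      intro h2
      exact hu ⟨v, h1, Fin.ext h2⟩
    · rw [if_neg h1, ite_self]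

theorem inv : InvStmt := by
  intro Y m P e D w n ρ μ a S hw hS hY hW l S' hS'
  have hP : 0 < P := lt_of_le_of_lt (Nat.zero_le _) hw
  have hinj : Set.InjOn (fun v : Fin n => hs P e w v) (S' : Set (Fin n)) := hW.1.mono hS'
  have hcard' : S'.card ≤ D := by
    have := Set.ncard_le_ncard hS' (Set.toFinite S)
    rw [Set.ncard_coe_finset] at this
    exact this.trans hS
  obtain ⟨U, hU⟩ : ∃ U, U = S'.image (hF P e w hP) := ⟨_, rfl⟩
  have hUc : U.card ≤ D := by
    rw [hU]
    exact Finset.card_image_le.trans hcard'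
  have hb : hv P e w (comb a l + ind S') = hv P e w (comb a l) + ind U := by
    rw [hv_add, hv_ind hP hinj, hU]
  have h1 : hv P e w (comb a l + ind S') ≠ 0 → tm Y m (hv P e w (comb a l + ind S')) ≠ 0 := by
    intro h
    rw [hb] at h ⊢
    exact hY.2 w hw l U hUc h
  have h2 : hv P e w (comb a l + ind S') = 0 →
      S' ⊆ VV P e D μ a ∧
        ∀ u : Fin P, (∃ v ∈ S', hs P e w v = u) ↔ hv P e w (comb a l) u ≠ 0 := by
    intro h
    rw [hb] at h
    have heq : ∀ u : Fin P, hv P e w (comb a l) u = if u ∈ U then 1 else 0 := fun u =>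
      zadd.mp (congrFun h u)
    have hne : ∀ u : Fin P, hv P e w (comb a l) u ≠ 0 ↔ u ∈ U := fun u => by
      rw [heq]
      split_ifs with h3 <;> simp [h3]
    have hmem : ∀ u : Fin P, (∃ v ∈ S', hs P e w v = u) ↔ u ∈ U := fun u => by
      rw [hU, Finset.mem_image]
      exact ⟨fun ⟨v, hv1, hv2⟩ => ⟨v, hv1, Fin.ext hv2⟩, fun ⟨v, hv1, hv2⟩ =>
        ⟨v, hv1, by rw [← hv2]; rfl⟩⟩
    refine ⟨fun v hvS => ?_, fun u => (hmem u).trans (hne u).symm⟩
    by_contra hvV
    have hwz : wz (hv P e w (comb a l)) ≤ D := by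
      refine le_trans (le_of_eq ?_) hUc
      unfold wz
      congr 1
      ext u
      rw [Finset.mem_filter, hne]
      simp
    have hvU : hF P e w hP v ∈ U := (hmem _).mp ⟨v, hvS, rfl⟩
    exact hW.2 v (hS' hvS) hvV (hF P e w hP v) ⟨l, hwz, (hne _).mpr hvU⟩ rfl
  refine ⟨⟨fun h => ?_, fun h => ?_⟩, h2, fun h => ?_⟩
  · by_contra h3
    exact h1 h3 h
  · rw [h]
    exact tm_zero Y m
  · by_cases h3 : hv P e w (comb a l + ind S') = 0
    · exact Or.inr (hY.1 l S' (h2 h3).1 hcard' h)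
    · exact Or.inl (h1 h3)

end Pool.Agent.Helper65.AF
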